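import Pool.Agent.Helper20.RG.St2

/-! # RG module LBW -/

set_option autoImplicit false

open MeasureTheory Set Filter Topology
open scoped ENNReal RealInnerProductSpace

namespace Pool.Agent.Helper16.RG

open Pool.Agent.Helper20.RG
open Pool.Agent.Helper68.LM (Pl BB Bd Av HL ft fm DQ)

private theorem sq_meas_LBW (x : Pl) (r : ℝ) : MeasurableSet (Sq x r) := by
  have h0 : IsClosed {y : Pl | |y 0 - x 0| ≤ r} :=
    isClosed_le (by fun_prop) continuous_const
  have h1 : IsClosed {y : Pl | |y 1 - x 1| ≤ r} :=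
    isClosed_le (by fun_prop) continuous_const
  exact (h0.inter h1).measurableSet

theorem hLBW : StLBW := by
  intro u Cf K A σ s g Zf η Λ b i k x hF hCf hη hΛ hg h01 hL
  set w : ℕ := om u (b - 1) (16 * u - i) with hw
  set r : ℝ := 4 * (2 : ℝ) ^ (k + (w : ℤ)) with hr
  have hε : 0 < η ^ 2 / 16 := by positivity
  -- Markov for every j
  have h1 : ∀ j ∈ Finset.range (2 ^ u),
      ENNReal.ofReal (η ^ 2 / 16) * volume (Ew Zf u η b i (1 / 4) k j ∩ Sq x r) ≤
        ∫⁻ y in Sq x r, ‖Zf w k j y‖ₑ ^ 2 := by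
    intro j hj
    have hj' := Finset.mem_range.1 hj
    have hmeas : Measurable fun y => ‖Zf w k j y‖ₑ ^ 2 :=
      (hF.cont w k j hj').measurable.enorm.pow_const 2
    refine le_trans ?_ (mul_meas_ge_le_lintegral hmeas (ENNReal.ofReal (η ^ 2 / 16)))
    refine mul_le_mul_right ?_ _
    rw [Measure.restrict_apply' (sq_meas_LBW x r)]
    refine measure_mono (inter_subset_inter_left _ ?_)
    intro y hy
    have h2 : 1 / 4 * η < |Zf w k j y| := hy.1
    show ENNReal.ofReal (η ^ 2 / 16) ≤ ‖Zf w k j y‖ₑ ^ 2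
    rw [← ofReal_norm, ← ENNReal.ofReal_pow (norm_nonneg _), Real.norm_eq_abs]
    refine ENNReal.ofReal_le_ofReal ?_
    have h3 : 0 < 1 / 4 * η := by positivity
    nlinarith
  have h2 : ENNReal.ofReal (η ^ 2 / 16) *
      ∑ j ∈ Finset.range (2 ^ u), volume (Ew Zf u η b i (1 / 4) k j ∩ Sq x r) ≤
      ENNReal.ofReal (Cf * Λ * (4 : ℝ) ^ (k + (w : ℤ))) := by
    rw [Finset.mul_sum]
    refine (Finset.sum_le_sum h1).trans ((hF.lb w k x).trans ?_)
    have h3 : ∫⁻ y in Sq x (Cf * (2 : ℝ) ^ (k + (w : ℤ))), ‖g y‖ₑ ^ 2 ≤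
        ENNReal.ofReal (Λ * (4 : ℝ) ^ (k + (w : ℤ))) := by
      refine le_trans (lintegral_mono fun y => ?_) (hL (k + (w : ℤ)))
      refine pow_le_of_le_one zero_le ?_ two_ne_zero
      rw [Real.enorm_eq_ofReal (h01 y).1]
      exact ENNReal.ofReal_le_one.2 (h01 y).2
    calc ENNReal.ofReal Cf * ∫⁻ y in Sq x (Cf * (2 : ℝ) ^ (k + (w : ℤ))), ‖g y‖ₑ ^ 2
        ≤ ENNReal.ofReal Cf * ENNReal.ofReal (Λ * (4 : ℝ) ^ (k + (w : ℤ))) :=
          mul_le_mul_right h3 _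
      _ = ENNReal.ofReal (Cf * Λ * (4 : ℝ) ^ (k + (w : ℤ))) := by
          rw [← ENNReal.ofReal_mul (by linarith)]
          congr 1
          ring
  have h4 : (16 * Cf * Λ / η ^ 2 * (4 : ℝ) ^ (k + (w : ℤ))) =
      (Cf * Λ * (4 : ℝ) ^ (k + (w : ℤ))) / (η ^ 2 / 16) := by
    field_simp
  rw [h4, ENNReal.ofReal_div_of_pos hε]
  rw [ENNReal.le_div_iff_mul_le (Or.inl (ENNReal.ofReal_pos.2 hε).ne')
    (Or.inl ENNReal.ofReal_ne_top), mul_comm]
  exact h2

end Pool.Agent.Helper16.RG
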